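import Pool.Agent.R544.CD.Red

/-!
# Recognising comparability digraphs is NP-complete

An ordering is a comparability ordering iff for all arcs `x → y → z` with `x ≠ z` and without the
arc `x → z` the vertex `y` is not between `x` and `z`.  Such conditions force that all neighbours of
a hub are on the same side of it.  A gadget with six vertices (found by computer) contains a triangle
whose three edges are oriented by the order in the way prescribed by three hubs, and has an ordering
iff the triangle is not cyclic: this encodes a not-all-equal clause.
-/

namespace Pool.Agent.Results.MP_8b4e11_lc.ComparabilityNPC

open Pool.Agent.NPC Pool.Agent.R544.CD

/-- The recognition problem for comparability digraphs is `NP`-complete. -/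
theorem result : InNPP Comparability ∧ NPHardP Comparability :=
  ⟨inNPP, HardI.toNPHardP hardPr_CD.toHardI⟩

end Pool.Agent.Results.MP_8b4e11_lc.ComparabilityNPC
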